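import Mathlib

/-!
# Tour layer: one closed curve from a tree of insertions (no geometry)

`ι` = rims (or other pieces that are inserted), `α` = strands, `E` = an equivalence relation on the
strands (`same value`).  The curve rides along the piece `K` on the strands
`seg K 0, seg K 1, .., seg K (n K)`.  Between `seg K i` and `seg K (i + 1)` the curve makes an
excursion through the list `ch K i` of pieces (usually the empty list): it arrives at the first
piece of the list on its strand number `0`, leaves it from its last strand, arrives at the second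
piece, and so on, and comes back to `seg K (i + 1)`.  If the rank decreases from `K` to the pieces
of `ch K i` then all strands of a piece are equivalent, and they are equivalent to the strands of
the root.
-/

set_option autoImplicit false
set_option linter.unusedSectionVars false

namespace Pool.Agent.MP42T

variable {ι α : Type*}

/-- `a` is linked to `b` through the pieces of a list -/
def Link (E : α → α → Prop) (n : ι → ℕ) (seg : ι → ℕ → α) : α → List ι → α → Prop
  | a, [], b => E a b
  | a, c :: L, b => E a (seg c 0) ∧ Link E n seg (seg c (n c)) L b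

lemma Link.out {E : α → α → Prop} (hE : Equivalence E) {n : ι → ℕ} {seg : ι → ℕ → α}
    {L : List ι} : ∀ {a b : α}, (∀ c ∈ L, E (seg c 0) (seg c (n c))) → Link E n seg a L b →
    E a b ∧ ∀ c ∈ L, E a (seg c 0) := by
  induction L with
  | nil =>
    intro a b _ h
    exact ⟨h, fun c hc => absurd hc (by simp)⟩
  | cons c L ih =>
    intro a b hc h
    obtain ⟨h1, h2⟩ := h
    obtain ⟨h3, h4⟩ := ih (fun d hd => hc d (List.mem_cons_of_mem _ hd)) h2
    have h5 := hE.trans h1 (hc c List.mem_cons_self)
    refine ⟨hE.trans h5 h3, fun d hd => ?_⟩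
    rcases List.mem_cons.1 hd with rfl | hd
    · exact h1
    · exact hE.trans h5 (h4 d hd)

lemma Link.mono {E E' : α → α → Prop} (hE : ∀ a b, E a b → E' a b) {n : ι → ℕ}
    {seg : ι → ℕ → α} {L : List ι} : ∀ {a b : α}, Link E n seg a L b → Link E' n seg a L b := by
  induction L with
  | nil => intro a b h; exact hE _ _ h
  | cons c L ih => intro a b h; exact ⟨hE _ _ h.1, ih h.2⟩

/-- Chains can be put together. -/
lemma Link.append {E : α → α → Prop} (hE : Equivalence E) {n : ι → ℕ} {seg : ι → ℕ → α}
    {L L' : List ι} : ∀ {a b c : α}, Link E n seg a L b → Link E n seg b L' c →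
    Link E n seg a (L ++ L') c := by
  induction L with
  | nil =>
    intro a b c h h'
    cases L' with
    | nil => exact hE.trans h h'
    | cons d L' => exact ⟨hE.trans h h'.1, h'.2⟩
  | cons d L ih => intro a b c h h'; exact ⟨h.1, ih h.2 h'⟩

lemma Link.left {E : α → α → Prop} (hE : Equivalence E) {n : ι → ℕ} {seg : ι → ℕ → α}
    {L : List ι} {a a' b : α} (h : E a a') (h' : Link E n seg a' L b) : Link E n seg a L b := by
  cases L with
  | nil => exact hE.trans h h'
  | cons d L => exact ⟨hE.trans h h'.1, h'.2⟩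

lemma Link.right {E : α → α → Prop} (hE : Equivalence E) {n : ι → ℕ} {seg : ι → ℕ → α}
    {L : List ι} : ∀ {a b b' : α}, Link E n seg a L b → E b b' → Link E n seg a L b' := by
  induction L with
  | nil => intro a b b' h h'; exact hE.trans h h'
  | cons d L ih => intro a b b' h h'; exact ⟨h.1, ih h.2 h'⟩

/-- The insertions. -/
structure Tour (ι α : Type*) (E : α → α → Prop) where
  rank : ι → ℕ
  n : ι → ℕ
  seg : ι → ℕ → α
  ch : ι → ℕ → List ι
  ch_rank : ∀ K i, i < n K → ∀ c ∈ ch K i, rank c < rank K
  link : ∀ K i, i < n K → Link E n seg (seg K i) (ch K i) (seg K (i + 1))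

namespace Tour

variable {E : α → α → Prop} (T : Tour ι α E) (hE : Equivalence E)

include hE

/-- all strands of a piece are equivalent -/
theorem const (K : ι) {i : ℕ} (hi : i ≤ T.n K) : E (T.seg K 0) (T.seg K i) := by
  obtain ⟨N, hN⟩ : ∃ N, T.rank K < N := ⟨_, Nat.lt_succ_self _⟩
  induction N generalizing K i with
  | zero => exact absurd hN (Nat.not_lt_zero _)
  | succ N ih =>
    induction i with
    | zero => exact hE.refl _
    | succ i ih' =>
      refine hE.trans (ih' (by omega)) ?_
      exact (Link.out hE (fun c hc => ih c le_rfl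
        (by have := T.ch_rank K i (by omega) c hc; omega)) (T.link K i (by omega))).1

theorem const' (K : ι) {i j : ℕ} (hi : i ≤ T.n K) (hj : j ≤ T.n K) :
    E (T.seg K i) (T.seg K j) :=
  hE.trans (hE.symm (T.const hE K hi)) (T.const hE K hj)

/-- the pieces of an excursion are equivalent to the piece that makes the excursion -/
theorem child {K c : ι} {i : ℕ} (hi : i < T.n K) (hc : c ∈ T.ch K i) :
    E (T.seg K 0) (T.seg c 0) :=
  hE.trans (T.const hE K hi.le)
    ((Link.out hE (fun d _ => T.const hE d le_rfl) (T.link K i hi)).2 c hc)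

/-- **The tour is one curve**: `rt K` is the root of the tree of `K`. -/
theorem root {rt : ι → ι} (hrk : ∃ B, ∀ K, T.rank K ≤ B)
    (h : ∀ K, K = rt K ∨ ∃ p i, i < T.n p ∧ K ∈ T.ch p i ∧ rt p = rt K) (K : ι) {i : ℕ}
    (hi : i ≤ T.n K) : E (T.seg (rt K) 0) (T.seg K i) := by
  refine hE.trans ?_ (T.const hE K hi)
  clear hi i
  obtain ⟨B, hB⟩ := hrk
  obtain ⟨N, hN⟩ : ∃ N, B < T.rank K + N := ⟨B + 1, by omega⟩
  induction N generalizing K with
  | zero => exact absurd (hB K) (by omega)
  | succ N ih =>
    rcases h K with h1 | ⟨p, i, h1, h2, h3⟩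
    · rw [← h1]; exact hE.refl _
    · rw [← h3]
      exact hE.trans (ih p (by have := T.ch_rank p i h1 K h2; omega)) (T.child hE h1 h2)

/-- one root -/
theorem root' {r : ι} (hrk : ∃ B, ∀ K, T.rank K ≤ B)
    (h : ∀ K, K = r ∨ ∃ p i, i < T.n p ∧ K ∈ T.ch p i) (K : ι) {i : ℕ}
    (hi : i ≤ T.n K) : E (T.seg r 0) (T.seg K i) :=
  T.root hE (rt := fun _ => r) hrk (fun K => by
    rcases h K with h1 | ⟨p, i, h1, h2⟩
    · exact Or.inl h1
    · exact Or.inr ⟨p, i, h1, h2, rfl⟩) K hi

end Tour

/-- the equivalence relation of a value -/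
lemma equiv_val (v : α → Prop) : Equivalence fun a b => (v a ↔ v b) :=
  ⟨fun _ => Iff.rfl, fun h => h.symm, fun h h' => h.trans h'⟩

/-! ## Rides along the orbit of a permutation -/

/-- A ride along the orbit of `π` starting at `a`: the values agree as long as there is no event. -/
lemma ride {β : Type*} (π : Equiv.Perm β) (v : β → Prop) (a : β) {n : ℕ}
    (h : ∀ i < n, (v ((π ^ i) a) ↔ v ((π ^ (i + 1)) a))) {i : ℕ} (hi : i ≤ n) :
    v a ↔ v ((π ^ i) a) := by
  induction i with
  | zero => exact Iff.rfl
  | succ i ih => exact (ih (by omega)).trans (h i (by omega))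

/-- A closed ride that is cut open at one place only. -/
lemma ride_cut {β : Type*} {π : Equiv.Perm β} {v : β → Prop} {c : β}
    (h : ∀ r, π.SameCycle c r → r ≠ c → (v r ↔ v (π r))) {r s : β} [Finite β]
    (hr : π.SameCycle c r) (hs : π.SameCycle c s) : v r ↔ v s := by
  have key : ∀ s, π.SameCycle c s → (v (π c) ↔ v s) := by
    intro s hs
    have h1 : π.SameCycle (π c) s := (Equiv.Perm.sameCycle_apply_left).2 hs
    obtain ⟨n, hn⟩ := h1.exists_nat_pow_eq
    obtain ⟨N, hN, hmin⟩ : ∃ N, (π ^ N) (π c) = s ∧ ∀ j < N, (π ^ j) (π c) ≠ s := by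
      classical
      exact ⟨Nat.find ⟨n, hn⟩, Nat.find_spec (⟨n, hn⟩ : ∃ n, (π ^ n) (π c) = s),
        fun j hj => Nat.find_min _ hj⟩
    -- no cut before `s`
    have hc : ∀ j < N, (π ^ j) (π c) ≠ c := by
      intro j hj h2
      have h3 : (π ^ (j + 1)) (π c) = π c := by
        rw [pow_succ', Equiv.Perm.mul_apply, h2]
      have h4 : (π ^ (N - (j + 1))) (π c) = s := by
        rw [← hN]
        conv_rhs => rw [show N = (N - (j + 1)) + (j + 1) by omega, pow_add,
          Equiv.Perm.mul_apply, h3]
      exact hmin _ (by omega) h4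
    have h5 := ride π v (π c) (n := N) (fun i hi => by
      have h6 : π.SameCycle c ((π ^ i) (π c)) :=
        (Equiv.Perm.sameCycle_pow_right).2 ((Equiv.Perm.sameCycle_apply_right).2
          (Equiv.Perm.SameCycle.refl π c))
      have h7 := h _ h6 (hc i hi)
      rw [pow_succ', Equiv.Perm.mul_apply]
      exact h7) (i := N) le_rfl
    rw [hN] at h5
    exact h5
  exact (key r hr).symm.trans (key s hs)

end Pool.Agent.MP42T
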